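import Mathlib

/-!
# Avoiding fewer than continuum many hypersurfaces inside a product of large sets
-/

open Cardinal Set

namespace Pool.Agent.H224.GF

theorem avoid_poly (S : Set ℝ) (hS : 𝔠 ≤ (Cardinal.mk S)) (G : Set (Polynomial ℝ)) (hG : (Cardinal.mk G) < 𝔠)
    (h0 : (0 : Polynomial ℝ) ∉ G) : ∃ s ∈ S, ∀ g ∈ G, g.eval s ≠ 0 := by
  by_contra hcon
  push Not at hcon
  have hsub : S ⊆ ⋃ g ∈ G, {s : ℝ | g.eval s = 0} := by
    intro s hs
    obtain ⟨g, hg, hs0⟩ := hcon s hs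
    simp only [mem_iUnion, mem_ofPred_eq, exists_prop]
    exact ⟨g, hg, hs0⟩
  have h1 : (Cardinal.mk (⋃ g ∈ G, {s : ℝ | g.eval s = 0} : Set ℝ)) ≤
      (Cardinal.mk G) * ⨆ g : G, (Cardinal.mk ({s : ℝ | g.1.eval s = 0} : Set ℝ)) := mk_biUnion_le _ _
  have h2 : (⨆ g : G, (Cardinal.mk ({s : ℝ | g.1.eval s = 0} : Set ℝ))) ≤ ℵ₀ := by
    refine ciSup_le' fun g => ?_
    have hg : g.1 ≠ 0 := fun h => h0 (h ▸ g.2)
    have hfin : ({s : ℝ | g.1.eval s = 0} : Set ℝ).Finite := by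
      refine (g.1.roots.toFinset.finite_toSet).subset ?_
      intro s hs
      simp only [Finset.mem_coe, Multiset.mem_toFinset]
      exact (Polynomial.mem_roots hg).2 hs
    exact hfin.countable.le_aleph0
  have h3 : (Cardinal.mk G) * (⨆ g : G, (Cardinal.mk ({s : ℝ | g.1.eval s = 0} : Set ℝ))) < 𝔠 :=
    mul_lt_of_lt aleph0_le_continuum hG (h2.trans_lt aleph0_lt_continuum)
  exact absurd (hS.trans ((mk_le_mk_of_subset hsub).trans h1)) (not_le.2 h3)

open MvPolynomial in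
theorem avoid : ∀ (n : ℕ) (S : Fin n → Set ℝ) (_ : ∀ i, 𝔠 ≤ (Cardinal.mk (S i)))
    (G : Set (MvPolynomial (Fin n) ℝ)) (_ : (Cardinal.mk G) < 𝔠) (_ : (0 : MvPolynomial (Fin n) ℝ) ∉ G),
    ∃ p : Fin n → ℝ, (∀ i, p i ∈ S i) ∧ ∀ g ∈ G, eval p g ≠ 0 := by
  intro n
  induction n with
  | zero =>
    intro S _ G _ h0
    refine ⟨fun i => i.elim0, fun i => i.elim0, fun g hg h => h0 ?_⟩
    have h1 : g = C (g.coeff 0) := eq_C_of_isEmpty g
    have h2 : g.coeff 0 = 0 := by
      rw [h1] at h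
      simpa using h
    rw [h2, map_zero] at h1
    exact h1 ▸ hg
  | succ n ih =>
    intro S hS G hG h0
    have hne : ∀ g ∈ G, finSuccEquiv ℝ n g ≠ 0 := by
      intro g hg h
      have : g = 0 := by
        have := congrArg (finSuccEquiv ℝ n).symm h
        simpa using this
      exact h0 (this ▸ hg)
    obtain ⟨p, hp, hp2⟩ := ih (fun i => S i.succ) (fun i => hS _)
      ((fun g => (finSuccEquiv ℝ n g).leadingCoeff) '' G) (mk_image_le.trans_lt hG) (by
        rintro ⟨g, hg, h⟩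
        exact hne g hg (Polynomial.leadingCoeff_eq_zero.1 h))
    obtain ⟨s, hs, hs2⟩ := avoid_poly (S 0) (hS 0)
      ((fun g => (finSuccEquiv ℝ n g).map (eval p)) '' G) (mk_image_le.trans_lt hG) (by
        rintro ⟨g, hg, h⟩
        have h1 := hp2 _ ⟨g, hg, rfl⟩
        apply h1
        have h2 : ((finSuccEquiv ℝ n g).map (eval p)).coeff (finSuccEquiv ℝ n g).natDegree = 0 := by
          simp only at h
          rw [h]; simp
        rw [Polynomial.coeff_map] at h2
        exact h2)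
    refine ⟨Fin.cons s p, ?_, ?_⟩
    · intro i
      refine Fin.cases ?_ (fun i => ?_) i
      · simpa using hs
      · simpa using hp i
    · intro g hg
      rw [eval_eq_eval_mv_eval']
      exact hs2 _ ⟨g, hg, rfl⟩

end Pool.Agent.H224.GF
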