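import Pool.Agent.H224.GF.Small

/-!
# Adding the small set changes neither the Hausdorff dimension nor the volume exponents
-/

open Cardinal Set Metric MeasureTheory Filter Topology
open scoped ENNReal NNReal Pointwise

namespace Pool.Agent.H224.GF

open Pool.Agent.H.MP_05d054_an in
theorem ubdim_thin {n : ℕ} {P : Set (E n)} (hP : BoxZero P) : ubdim P = 0 := by
  refine le_antisymm ?_ zero_le
  refine le_of_forall_pos_le_add fun ε hε => ?_
  rw [zero_add]
  rcases eq_or_ne ε ⊤ with rfl | htop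
  · exact le_top
  set e : ℝ := ε.toReal with he
  have he0 : 0 < e := ENNReal.toReal_pos hε.ne' htop
  have hεe : ε = ENNReal.ofReal e := (ENNReal.ofReal_toReal htop).symm
  rw [hεe]
  obtain ⟨A, hA, hcov⟩ := hP _ (half_pos he0)
  unfold ubdim
  refine limsup_le_of_le ?_ ?_
  · isBoundedDefault
  -- for small `r`
  have hlog : Tendsto (fun r : ℝ≥0 => -Real.log (r : ℝ)) (𝓝[>] 0) atTop := by
    have h1 : Tendsto (fun r : ℝ≥0 => (r : ℝ)) (𝓝[>] 0) (𝓝[>] 0) := by
      refine tendsto_nhdsWithin_iff.2 ⟨?_, ?_⟩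
      · exact (NNReal.continuous_coe.tendsto' 0 0 (by simp)).mono_left nhdsWithin_le_nhds
      · filter_upwards [self_mem_nhdsWithin] with r hr
        exact hr
    exact tendsto_neg_atBot_atTop.comp (Real.tendsto_log_nhdsGT_zero.comp h1)
  have h2 : ∀ᶠ r : ℝ≥0 in 𝓝[>] 0, 2 * |Real.log A| / e ≤ -Real.log (r : ℝ) :=
    hlog.eventually_ge_atTop _
  have h3 : ∀ᶠ r : ℝ≥0 in 𝓝[>] 0, r < 1 := nhdsWithin_le_nhds (gt_mem_nhds one_pos)
  filter_upwards [h2, h3, self_mem_nhdsWithin] with r hr hr1 hr0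
  refine ENNReal.ofReal_le_ofReal ?_
  have hr0' : (0 : ℝ) < r := hr0
  have hr1' : (r : ℝ) < 1 := hr1
  have hlr : Real.log (r : ℝ) < 0 := Real.log_neg hr0' hr1'
  obtain ⟨F, hF1, hF2, hF3⟩ := hcov r hr0' hr1'
  have hle : (coveringNumber r P) ≤ (F : Set (E n)).encard := by
    refine IsCover.coveringNumber_le_encard ?_ ?_
    · exact fun f hf => hF2 f hf
    · intro p hp
      obtain ⟨f, hf, hpf⟩ := hF3 p hp
      refine ⟨f, hf, ?_⟩
      simpa [edist_dist, ENNReal.ofReal_le_iff_le_toReal] using hpf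
  have hle2 : (coveringNumber r P).toNat ≤ F.card := by
    have := ENat.toNat_le_toNat hle (by simp)
    simpa using this
  rw [div_le_iff₀ (by linarith)]
  rcases Nat.eq_zero_or_pos (coveringNumber r P).toNat with h0 | h0
  · rw [h0]; simp; nlinarith
  · have h4 : ((coveringNumber r P).toNat : ℝ) ≤ A * (r : ℝ) ^ (-(e / 2)) :=
      (by exact_mod_cast hle2 : ((coveringNumber r P).toNat : ℝ) ≤ F.card).trans hF1
    have h5 := Real.log_le_log (by exact_mod_cast h0) h4
    rw [Real.log_mul hA.ne' (by positivity), Real.log_rpow hr0'] at h5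
    have h6 : Real.log A ≤ |Real.log A| := le_abs_self _
    rw [div_le_iff₀ he0] at hr
    nlinarith

theorem dimH_add_thin {n : ℕ} {P : Set (E n)} (hc : IsCompact P) (hne : P.Nonempty)
    (hP : BoxZero P) (K : Set (E n)) : dimH (K + P) = dimH K := by
  apply le_antisymm
  · have h1 : K + P = (fun p : E n × E n => p.1 + p.2) '' (K ×ˢ P) := by
      rw [← Set.image2_add, Set.image_prod]
    have hlip : LipschitzWith 2 (fun p : E n × E n => p.1 + p.2) := by
      refine LipschitzWith.of_dist_le_mul fun p q => ?_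
      have h3 := dist_add_add_le p.1 p.2 q.1 q.2
      have h4 : dist p.1 q.1 ≤ dist p q := by rw [Prod.dist_eq]; exact le_max_left _ _
      have h5 : dist p.2 q.2 ≤ dist p q := by rw [Prod.dist_eq]; exact le_max_right _ _
      push_cast
      linarith
    rw [h1]
    refine (hlip.dimH_image_le _).trans ?_
    refine (Pool.Agent.H.MP_05d054_an.dimH_prod_le K hc.totallyBounded).trans ?_
    rw [ubdim_thin hP, add_zero]
  · obtain ⟨p, hp⟩ := hne
    have h1 : (fun k => k + p) '' K ⊆ K + P := by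
      rintro _ ⟨k, hk, rfl⟩
      exact Set.add_mem_add hk hp
    have h2 : dimH ((fun k => k + p) '' K) = dimH K := (isometry_add_right p).dimH_image K
    rw [← h2]
    exact dimH_mono h1

/-- `|N_δ(K)| ≥ c δ ^ ε` for every `ε > 0`: full lower Minkowski dimension. -/
def FullMinkowski (n : ℕ) (K : Set (E n)) : Prop :=
  ∀ ε : ℝ, 0 < ε → ∃ c : ℝ, 0 < c ∧ ∀ δ : ℝ, 0 < δ → δ < 1 →
    ENNReal.ofReal (c * δ ^ ε) ≤ volume (thickening δ K)

theorem volume_thickening_add_thin {n : ℕ} {P : Set (E n)} (hP : BoxZero P) {ε : ℝ} (hε : 0 < ε) :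
    ∃ A : ℝ, 0 < A ∧
    ∀ K : Set (E n), ∀ δ : ℝ, 0 < δ → δ < 1 →
      volume (thickening δ (K + P)) ≤
        ENNReal.ofReal (A * δ ^ (-ε)) * volume (thickening (2 * δ) K) := by
  obtain ⟨A, hA, hcov⟩ := hP ε hε
  refine ⟨A, hA, fun K δ h0 h1 => ?_⟩
  obtain ⟨F, hF1, hF2, hF3⟩ := hcov δ h0 h1
  have hsub : thickening δ (K + P) ⊆ ⋃ f ∈ F, (fun x => x + f) '' thickening (2 * δ) K := by
    intro x hx
    obtain ⟨z, hz, hxz⟩ := mem_thickening_iff.1 hx
    obtain ⟨k, hk, p, hp, rfl⟩ := hz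
    obtain ⟨f, hf, hpf⟩ := hF3 p hp
    simp only [mem_iUnion, exists_prop]
    refine ⟨f, hf, x - f, mem_thickening_iff.2 ⟨k, hk, ?_⟩, by simp⟩
    rw [dist_eq_norm] at *
    have : x - f - k = (x - (k + p)) + (p - f) := by abel
    rw [this]
    refine (norm_add_le _ _).trans_lt ?_
    linarith
  refine (measure_mono hsub).trans ((measure_biUnion_finset_le F _).trans ?_)
  have h2 : ∀ f ∈ F, volume ((fun x => x + f) '' thickening (2 * δ) K) =
      volume (thickening (2 * δ) K) := by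
    intro f _
    rw [image_add_right]
    exact measure_preimage_add_right volume (-f) _
  rw [Finset.sum_congr rfl h2, Finset.sum_const, nsmul_eq_mul]
  gcongr
  rw [← ENNReal.ofReal_natCast]
  exact ENNReal.ofReal_le_ofReal hF1

theorem fullMinkowski_of_add_thin {n : ℕ} {P : Set (E n)} (hP : BoxZero P) {K : Set (E n)}
    (h : FullMinkowski n (K + P)) : FullMinkowski n K := by
  intro ε hε
  obtain ⟨c, hc, h1⟩ := h (ε / 2) (half_pos hε)
  obtain ⟨A, hA, h2⟩ := volume_thickening_add_thin hP (half_pos hε)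
  refine ⟨c / A * (1 / 2) ^ ε, by positivity, fun δ h0 hδ => ?_⟩
  have h3 := h1 (δ / 2) (by linarith) (by linarith)
  have h4 := h2 K (δ / 2) (by linarith) (by linarith)
  rw [show 2 * (δ / 2) = δ by ring] at h4
  have h5 := h3.trans h4
  have hpos : 0 < A * (δ / 2) ^ (-(ε / 2)) := by positivity
  have h6 : ENNReal.ofReal (c * (δ / 2) ^ (ε / 2)) =
      ENNReal.ofReal (A * (δ / 2) ^ (-(ε / 2))) * ENNReal.ofReal (c / A * (1 / 2) ^ ε * δ ^ ε) := by
    rw [← ENNReal.ofReal_mul hpos.le]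
    congr 1
    have e1 : (δ / 2) ^ (ε / 2) = (δ / 2) ^ (-(ε / 2)) * (δ / 2) ^ ε := by
      rw [← Real.rpow_add (by linarith)]; congr 1; ring
    have e2 : (δ / 2) ^ ε = (1 / 2) ^ ε * δ ^ ε := by
      rw [← Real.mul_rpow (by norm_num) h0.le]; congr 1; ring
    rw [e1, e2]
    field_simp
  rw [h6] at h5
  exact (ENNReal.mul_le_mul_iff_right (by simpa using hpos) ENNReal.ofReal_ne_top).1 h5

end Pool.Agent.H224.GF
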