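import Pool.Agent.H224.GF.Small

/-!
# Linear algebra and polynomial tools
-/

open Cardinal Set MvPolynomial

namespace Pool.Agent.H224.GF

/-- the monomials of degree at most `d` -/
theorem finrank_le (n d : ℕ) (hn : 1 ≤ n) :
    Module.finrank ℝ (restrictTotalDegree (Fin n) ℝ d) ≤ (n + d).choose n := by
  classical
  obtain ⟨k, rfl⟩ : ∃ k, n = k + 1 := ⟨n - 1, by omega⟩
  set s : Set (Fin (k + 1) →₀ ℕ) := {m | (m.sum fun _ e => e) ≤ d} with hs
  set F : Finset (Fin (k + 1) →₀ ℕ) :=
    (Finset.range (d + 1)).biUnion fun i => Finset.finsuppAntidiag Finset.univ i with hF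
  have hsF : ∀ m ∈ s, m ∈ F := by
    intro m hm
    rw [hF, Finset.mem_biUnion]
    refine ⟨m.sum fun _ e => e, Finset.mem_range.2 (Nat.lt_succ_of_le hm), ?_⟩
    rw [Finset.mem_finsuppAntidiag]
    refine ⟨?_, Finset.subset_univ _⟩
    rw [Finsupp.sum_fintype _ _ (by simp)]
  have hfin : s.Finite := F.finite_toSet.subset hsF
  have : Fintype s := hfin.fintype
  have h1 : Module.finrank ℝ (restrictTotalDegree (Fin (k + 1)) ℝ d) = Fintype.card s :=
    Module.finrank_eq_card_basis (basisRestrictSupport ℝ s)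
  rw [h1]
  have h2 : Fintype.card s ≤ F.card := by
    rw [← Fintype.card_coe]
    exact Fintype.card_le_of_injective (fun m : s => (⟨m.1, hsF m.1 m.2⟩ : F))
      (fun a b h => by
        have := congrArg Subtype.val h
        exact Subtype.ext this)
  refine h2.trans (Finset.card_biUnion_le.trans ?_)
  have h3 : ∀ i ∈ Finset.range (d + 1), (Finset.finsuppAntidiag (Finset.univ : Finset (Fin (k + 1))) i).card
      = (i + k).choose k := by
    intro i _
    rw [Finset.card_finsuppAntidiag_nat_eq_choose]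
    simp only [Finset.card_univ, Fintype.card_fin]
    rw [show k + 1 + i - 1 = i + k by omega]
    exact Nat.choose_symm_of_eq_add (by omega)
  rw [Finset.sum_congr rfl h3, Nat.sum_range_add_choose]
  rw [show k + 1 + d = d + k + 1 by omega]

/-- a nonzero vector orthogonal to fewer than `n` given vectors -/
theorem exists_orth {n k : ℕ} (v : Fin k → E n) (hk : k < n) :
    ∃ w : E n, w ≠ 0 ∧ ∀ i, inner ℝ w (v i) = 0 := by
  have h1 : Module.finrank ℝ (Submodule.span ℝ (Set.range v)) < n := by
    refine (finrank_range_le_card v).trans_lt ?_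
    simpa using hk
  have h2 : (Submodule.span ℝ (Set.range v))ᗮ ≠ ⊥ := by
    intro h
    have h3 := (Submodule.span ℝ (Set.range v)).finrank_add_finrank_orthogonal
    rw [h, finrank_bot, finrank_euclideanSpace_fin] at h3
    omega
  obtain ⟨w, hw, hw0⟩ := Submodule.exists_mem_ne_zero_of_ne_bot h2
  refine ⟨w, hw0, fun i => ?_⟩
  have := hw (v i) (Submodule.subset_span ⟨i, rfl⟩)
  rwa [real_inner_comm] at this

/-- the chosen orthogonal vector -/
noncomputable def orth {n k : ℕ} (v : Fin k → E n) : E n :=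
  open Classical in
  if h : ∃ w : E n, w ≠ 0 ∧ ∀ i, inner ℝ w (v i) = 0 then Classical.choose h else 0

theorem orth_spec {n k : ℕ} (v : Fin k → E n) (hk : k < n) :
    orth v ≠ 0 ∧ ∀ i, inner ℝ (orth v) (v i) = 0 := by
  have h := exists_orth v hk
  unfold orth
  rw [dif_pos h]
  exact Classical.choose_spec h

/-- the affine function `z ↦ ⟪w, z - b⟫` as a polynomial -/
noncomputable def aff {n : ℕ} (w b : E n) : MvPolynomial (Fin n) ℝ :=
  ∑ i, C (w i) * (X i - C (b i))

theorem eval_aff {n : ℕ} (w b z : E n) : eval (fun i => z i) (aff w b) = inner ℝ w (z - b) := by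
  simp only [aff, map_sum, map_mul, eval_C, map_sub, eval_X]
  rw [PiLp.inner_apply]
  refine Finset.sum_congr rfl fun i _ => ?_
  simp [mul_comm]

theorem aff_ne_zero {n : ℕ} {w : E n} (hw : w ≠ 0) (b : E n) : aff w b ≠ 0 := by
  intro h
  have h1 := eval_aff w b (b + w)
  rw [h] at h1
  simp only [map_zero, add_sub_cancel_left] at h1
  exact hw (inner_self_eq_zero.1 h1.symm)

/-- The polynomial `f` vanishes on the line through `a` with direction `e`. -/
def Vanishes {n : ℕ} (f : MvPolynomial (Fin n) ℝ) (a e : E n) : Prop :=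
  ∀ t : ℝ, eval (fun i => (a + t • e) i) f = 0

/-- polynomials of degree at most `d` that vanish on a family of lines -/
noncomputable def vanish {n : ℕ} (d : ℕ) (L : Set (E n × E n)) :
    Submodule ℝ (MvPolynomial (Fin n) ℝ) where
  carrier := {f | f.totalDegree ≤ d ∧ ∀ p ∈ L, Vanishes f p.2 p.1}
  add_mem' := by
    rintro f g ⟨hf, hf2⟩ ⟨hg, hg2⟩
    refine ⟨(totalDegree_add f g).trans (max_le hf hg), fun p hp t => ?_⟩
    rw [map_add, hf2 p hp t, hg2 p hp t, add_zero]
  zero_mem' := by simp [Vanishes]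
  smul_mem' := by
    rintro c f ⟨hf, hf2⟩
    refine ⟨(totalDegree_smul_le c f).trans hf, fun p hp t => ?_⟩
    rw [smul_eval, hf2 p hp t, mul_zero]

theorem vanish_le {n : ℕ} (d : ℕ) (L : Set (E n × E n)) :
    vanish d L ≤ restrictTotalDegree (Fin n) ℝ d := fun f hf =>
  (mem_restrictTotalDegree (Fin n) d f).2 hf.1

/-- chosen nonzero polynomials of degree at most `d` vanishing on a family of lines -/
noncomputable def chosen {n : ℕ} (d : ℕ) (L : Set (E n × E n)) : MvPolynomial (Fin n) ℝ :=
  open Classical in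
  if h : ∃ f ∈ vanish d L, f ≠ 0 then Classical.choose h else 0

theorem chosen_mem {n : ℕ} (d : ℕ) (L : Set (E n × E n)) : chosen d L ∈ vanish d L := by
  unfold chosen
  split_ifs with h
  · exact (Classical.choose_spec h).1
  · exact Submodule.zero_mem _

theorem chosen_ne_zero {n : ℕ} {d : ℕ} {L : Set (E n × E n)} {f : MvPolynomial (Fin n) ℝ}
    (hf : f ∈ vanish d L) (h0 : f ≠ 0) : chosen d L ≠ 0 := by
  unfold chosen
  have h : ∃ f ∈ vanish d L, f ≠ 0 := ⟨f, hf, h0⟩
  rw [dif_pos h]
  exact (Classical.choose_spec h).2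

end Pool.Agent.H224.GF
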