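import Pool.Agent.H224.GF.Master
import Pool.Agent.H224.GF.Tools

/-!
# Generic families of lines
-/

open Cardinal Set MvPolynomial

namespace Pool.Agent.H224.GF

variable {n : ℕ}

/-- the line through `a` with direction `e` -/
def line (a e : E n) : Set (E n) := {z | ∃ t : ℝ, z = a + t • e}

/-- the field generated by the numbers in `A`, the coordinates of `e`, and the coordinates of the
directions and positions in `F` -/
noncomputable def fieldOf (A : Set ℝ) (e : E n) (F : Finset (E n × E n)) : Subfield ℝ :=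
  Subfield.closure (A ∪ (Set.range fun i => e i) ∪
    ⋃ p ∈ F, ((Set.range fun i => p.1 i) ∪ Set.range fun i => p.2 i))

theorem mk_fieldOf_le {A : Set ℝ} (hA : A.Countable) (e : E n) (F : Finset (E n × E n)) :
    (Cardinal.mk (fieldOf A e F)) ≤ ℵ₀ := by
  refine (Subfield.cardinalMk_closure_le_max _).trans (max_le ?_ le_rfl)
  refine Set.Countable.le_aleph0 ?_
  refine (hA.union (countable_range _)).union ?_
  exact F.countable_toSet.biUnion fun p _ => (countable_range _).union (countable_range _)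

/-- the point in which the line `s` meets the hyperplane attached to the lines `p`, `q` -/
noncomputable def meetPt (p q s : E n × E n) : E n :=
  open Classical in
  if h : ∃ t : ℝ, inner ℝ (orth ![p.1, q.1, q.2 - p.2]) (s.2 + t • s.1 - p.2) = 0 then
    s.2 + Classical.choose h • s.1 else 0

/-- the polynomials that must not vanish at the position of the line number `e`, if the family `F`
of lines has been chosen before -/
def cond (A : Set ℝ) (e : E n) (F : Finset (E n × E n)) : Set (MvPolynomial (Fin n) ℝ) :=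
  ((⋃ p ∈ F, {aff (orth ![e, p.1]) p.2}) ∪
  (⋃ p ∈ F, ⋃ q ∈ F, {aff (orth ![p.1, q.1, q.2 - p.2]) p.2}) ∪
  (⋃ p ∈ F, ⋃ q ∈ F, ⋃ s ∈ F, {aff (orth ![p.1, meetPt p q s - p.2, e]) p.2}) ∪
  (Set.range fun d : ℕ => chosen d (F : Set (E n × E n))) ∪
  (Set.range fun h : MvPolynomial (Fin n) (fieldOf A e F) => map (algebraMap _ ℝ) h)) \ {0}

theorem countable_cond {A : Set ℝ} (hA : A.Countable) (e : E n) (F : Finset (E n × E n)) :
    (cond A e F).Countable := by
  refine Set.Countable.mono Set.sdiff_subset ?_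
  refine ((((?_ : Set.Countable _).union ?_).union ?_).union (countable_range _)).union ?_
  · exact F.countable_toSet.biUnion fun p _ => countable_singleton _
  · exact F.countable_toSet.biUnion fun p _ => F.countable_toSet.biUnion fun q _ =>
      countable_singleton _
  · exact F.countable_toSet.biUnion fun p _ => F.countable_toSet.biUnion fun q _ =>
      F.countable_toSet.biUnion fun s _ => countable_singleton _
  · have h1 : (Cardinal.mk (MvPolynomial (Fin n) (fieldOf A e F))) ≤ ℵ₀ := by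
      refine MvPolynomial.cardinalMk_le_max.trans ?_
      refine max_le (max_le (mk_fieldOf_le hA e F) ?_) le_rfl
      simp
    have : Countable (MvPolynomial (Fin n) (fieldOf A e F)) := mk_le_aleph0_iff.1 h1
    exact countable_range _

theorem zero_notMem_cond (A : Set ℝ) (e : E n) (F : Finset (E n × E n)) :
    (0 : MvPolynomial (Fin n) ℝ) ∉ cond A e F := fun h => h.2 rfl

/-- The data produced by the transfinite choice. -/
def Good (A : Set ℝ) (y : E n → E n) (r : E n → E n → Prop) : Prop :=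
  open Classical in
  ∀ (e : E n) (F : Finset (E n)), (∀ e' ∈ F, r e' e) →
    ∀ g ∈ cond A e (F.image fun e' => (e', y e')), eval (fun i => y e i) g ≠ 0

theorem exists_max {r : E n → E n → Prop} (wo : IsWellOrder (E n) r) (S : Finset (E n))
    (hS : S.Nonempty) : ∃ m ∈ S, ∀ x ∈ S, x ≠ m → r x m := by
  classical
  induction hS using Finset.Nonempty.cons_induction with
  | singleton a => exact ⟨a, by simp, fun x hx h => absurd (Finset.mem_singleton.1 hx) h⟩
  | cons a s ha hs ih =>
    obtain ⟨m, hm, h⟩ := ih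
    rcases trichotomous_of r a m with h1 | h1 | h1
    · refine ⟨m, Finset.mem_cons.2 (Or.inr hm), fun x hx hxm => ?_⟩
      rcases Finset.mem_cons.1 hx with rfl | hx
      · exact h1
      · exact h x hx hxm
    · exact absurd (h1 ▸ hm) ha
    · refine ⟨a, Finset.mem_cons_self _ _, fun x hx hxa => ?_⟩
      rcases Finset.mem_cons.1 hx with rfl | hx
      · exact absurd rfl hxa
      · rcases eq_or_ne x m with rfl | hxm
        · exact h1
        · exact trans_of r (h x hx hxm) h1

variable {A : Set ℝ} {y : E n → E n} {r : E n → E n → Prop}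

theorem Good.inner_ne (h : Good A y r) (hn : 3 ≤ n) {e e' : E n} (hr : r e' e) :
    inner ℝ (orth ![e, e']) (y e - y e') ≠ 0 := by
  classical
  have h1 := h e {e'} (by simpa using hr) (aff (orth ![e, e']) (y e')) (by
    refine ⟨?_, ?_⟩
    · left; left; left; left
      simp
    · exact aff_ne_zero (orth_spec ![e, e'] (by omega)).1 _)
  rwa [eval_aff] at h1

theorem Good.disjoint_of_rel (h : Good A y r) (hn : 3 ≤ n) {e e' : E n} (hr : r e' e) :
    Disjoint (line (y e) e) (line (y e') e') := by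
  rw [Set.disjoint_left]
  rintro z ⟨t, ht⟩ ⟨s, hs⟩
  apply h.inner_ne hn hr
  obtain ⟨-, h2⟩ := orth_spec ![e, e'] (by omega)
  have h3 := h2 0
  have h4 := h2 1
  simp only [Matrix.cons_val_zero, Matrix.cons_val_one] at h3 h4
  have h5 : y e - y e' = s • e' - t • e := by
    have : y e + t • e = y e' + s • e' := ht ▸ hs
    rw [sub_eq_sub_iff_add_eq_add, this, add_comm]
  rw [h5, inner_sub_right, inner_smul_right, inner_smul_right, h3, h4]
  simp

theorem Good.disjoint (h : Good A y r) (wo : IsWellOrder (E n) r) (hn : 3 ≤ n) {e e' : E n}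
    (hee : e ≠ e') : Disjoint (line (y e) e) (line (y e') e') := by
  rcases trichotomous_of r e e' with h1 | h1 | h1
  · exact (h.disjoint_of_rel hn h1).symm
  · exact absurd h1 hee
  · exact h.disjoint_of_rel hn h1

theorem Good.inner_ne₂ (h : Good A y r) (hn : 4 ≤ n) {e₁ e₂ e₃ : E n} (h1 : r e₁ e₃)
    (h2 : r e₂ e₃) : inner ℝ (orth ![e₁, e₂, y e₂ - y e₁]) (y e₃ - y e₁) ≠ 0 := by
  classical
  have h3 := h e₃ {e₁, e₂} (by
    intro e' he'
    rcases Finset.mem_insert.1 he' with rfl | he'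
    · exact h1
    · rw [Finset.mem_singleton.1 he']; exact h2)
    (aff (orth ![e₁, e₂, y e₂ - y e₁]) (y e₁)) (by
    refine ⟨?_, ?_⟩
    · left; left; left; right
      simp only [mem_iUnion]
      exact ⟨(e₁, y e₁), Finset.mem_image.2 ⟨e₁, by simp, rfl⟩, (e₂, y e₂),
        Finset.mem_image.2 ⟨e₂, by simp, rfl⟩, rfl⟩
    · exact aff_ne_zero (orth_spec ![e₁, e₂, y e₂ - y e₁] (by omega)).1 _)
  rwa [eval_aff] at h3

theorem Good.inner_ne₃ (h : Good A y r) (hn : 4 ≤ n) {e₁ e₂ e₃ e₄ : E n} (h1 : r e₁ e₄)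
    (h2 : r e₂ e₄) (h3 : r e₃ e₄) :
    inner ℝ (orth ![e₁, meetPt (e₁, y e₁) (e₂, y e₂) (e₃, y e₃) - y e₁, e₄])
      (y e₄ - y e₁) ≠ 0 := by
  classical
  have h5 := h e₄ {e₁, e₂, e₃} (by
    intro e' he'
    simp only [Finset.mem_insert, Finset.mem_singleton] at he'
    rcases he' with rfl | rfl | rfl
    · exact h1
    · exact h2
    · exact h3)
    (aff (orth ![e₁, meetPt (e₁, y e₁) (e₂, y e₂) (e₃, y e₃) - y e₁, e₄]) (y e₁)) (by
    refine ⟨?_, ?_⟩
    · left; left; right
      simp only [mem_iUnion]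
      exact ⟨(e₁, y e₁), Finset.mem_image.2 ⟨e₁, by simp, rfl⟩, (e₂, y e₂),
        Finset.mem_image.2 ⟨e₂, by simp, rfl⟩, (e₃, y e₃),
        Finset.mem_image.2 ⟨e₃, by simp, rfl⟩, rfl⟩
    · exact aff_ne_zero (orth_spec _ (by omega)).1 _)
  rwa [eval_aff] at h5

/-- four lines have no common transversal -/
theorem Good.no_transversal_aux (h : Good A y r) (wo : IsWellOrder (E n) r) (hn : 4 ≤ n)
    {e₁ e₂ e₃ e₄ : E n} (h12 : e₁ ≠ e₂) (h13 : r e₁ e₃) (h23 : r e₂ e₃) (h14 : r e₁ e₄)
    (h24 : r e₂ e₄) (h34 : r e₃ e₄) (a v : E n) (t₁ t₂ t₃ t₄ s₁ s₂ s₃ s₄ : ℝ)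
    (H1 : a + s₁ • v = y e₁ + t₁ • e₁) (H2 : a + s₂ • v = y e₂ + t₂ • e₂)
    (H3 : a + s₃ • v = y e₃ + t₃ • e₃) (H4 : a + s₄ • v = y e₄ + t₄ • e₄) : False := by
  have n13 : e₁ ≠ e₃ := by rintro rfl; exact irrefl_of r _ h13
  have hs12 : s₁ ≠ s₂ := by
    rintro rfl
    exact Set.disjoint_left.1 (h.disjoint wo (by omega) h12) ⟨t₁, H1⟩ ⟨t₂, H2⟩
  have hs13 : s₁ ≠ s₃ := by
    rintro rfl
    exact Set.disjoint_left.1 (h.disjoint wo (by omega) n13) ⟨t₁, H1⟩ ⟨t₃, H3⟩
  set w := orth ![e₁, e₂, y e₂ - y e₁] with hw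
  have hw' := (orth_spec ![e₁, e₂, y e₂ - y e₁] (show 3 < n by omega)).2
  have w1 : inner ℝ w e₁ = 0 := hw' 0
  have w2 : inner ℝ w e₂ = 0 := hw' 1
  have w3 : inner ℝ w (y e₂ - y e₁) = 0 := hw' 2
  have k1 : inner ℝ w (a - y e₁) + s₁ * inner ℝ w v = 0 := by
    rw [← inner_smul_right, ← inner_add_right]
    have : a - y e₁ + s₁ • v = t₁ • e₁ := by
      rw [sub_add_eq_add_sub, H1]; abel
    rw [this, inner_smul_right, w1, mul_zero]
  have k2 : inner ℝ w (a - y e₁) + s₂ * inner ℝ w v = 0 := by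
    rw [← inner_smul_right, ← inner_add_right]
    have : a - y e₁ + s₂ • v = (y e₂ - y e₁) + t₂ • e₂ := by
      rw [sub_add_eq_add_sub, H2]; abel
    rw [this, inner_add_right, inner_smul_right, w2, w3]; simp
  have k3 : inner ℝ w v = 0 := by
    have : (s₁ - s₂) * inner ℝ w v = 0 := by linarith
    rcases mul_eq_zero.1 this with h0 | h0
    · exact absurd (sub_eq_zero.1 h0) hs12
    · exact h0
  have k4 : inner ℝ w (a - y e₁) = 0 := by rw [k3, mul_zero, add_zero] at k1; exact k1
  -- the third line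
  have k5 : inner ℝ w (y e₃ + t₃ • e₃ - y e₁) = 0 := by
    rw [← H3]
    have : a + s₃ • v - y e₁ = (a - y e₁) + s₃ • v := by abel
    rw [this, inner_add_right, inner_smul_right, k3, k4]; simp
  have k6 := h.inner_ne₂ hn h13 h23
  rw [← hw] at k6
  have hex : ∃ t : ℝ, inner ℝ (orth ![(e₁, y e₁).1, (e₂, y e₂).1, (e₂, y e₂).2 - (e₁, y e₁).2])
      ((e₃, y e₃).2 + t • (e₃, y e₃).1 - (e₁, y e₁).2) = 0 := ⟨t₃, k5⟩
  have k7 : meetPt (e₁, y e₁) (e₂, y e₂) (e₃, y e₃) = y e₃ + t₃ • e₃ := by
    unfold meetPt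
    rw [dif_pos hex]
    have h8 := Classical.choose_spec hex
    set t' := Classical.choose hex with ht'
    have h9 : inner ℝ w (y e₃ + t' • e₃ - y e₁) = 0 := h8
    have e9 : ∀ t : ℝ, inner ℝ w (y e₃ + t • e₃ - y e₁) = inner ℝ w (y e₃ - y e₁) + t * inner ℝ w e₃ := by
      intro t
      rw [← inner_smul_right, ← inner_add_right]; congr 1; abel
    rw [e9] at h9 k5
    have h10 : (t' - t₃) * inner ℝ w e₃ = 0 := by linarith
    rcases mul_eq_zero.1 h10 with h0 | h0
    · have : t' = t₃ := sub_eq_zero.1 h0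
      simp only [this]
    · rw [h0, mul_zero, add_zero] at k5
      exact absurd k5 k6
  have k8 := h.inner_ne₃ hn h14 h24 h34
  rw [k7] at k8
  set u := orth ![e₁, y e₃ + t₃ • e₃ - y e₁, e₄] with hu
  have hu' := (orth_spec ![e₁, y e₃ + t₃ • e₃ - y e₁, e₄] (show 3 < n by omega)).2
  have u1 : inner ℝ u e₁ = 0 := hu' 0
  have u2 : inner ℝ u (y e₃ + t₃ • e₃ - y e₁) = 0 := hu' 1
  have u3 : inner ℝ u e₄ = 0 := hu' 2
  have m1 : inner ℝ u (a - y e₁) + s₁ * inner ℝ u v = 0 := by
    rw [← inner_smul_right, ← inner_add_right]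
    have : a - y e₁ + s₁ • v = t₁ • e₁ := by
      rw [sub_add_eq_add_sub, H1]; abel
    rw [this, inner_smul_right, u1, mul_zero]
  have m3 : inner ℝ u (a - y e₁) + s₃ * inner ℝ u v = 0 := by
    rw [← inner_smul_right, ← inner_add_right]
    have : a - y e₁ + s₃ • v = y e₃ + t₃ • e₃ - y e₁ := by
      rw [sub_add_eq_add_sub, H3]
    rw [this, u2]
  have m4 : inner ℝ u v = 0 := by
    have : (s₁ - s₃) * inner ℝ u v = 0 := by linarith
    rcases mul_eq_zero.1 this with h0 | h0
    · exact absurd (sub_eq_zero.1 h0) hs13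
    · exact h0
  have m5 : inner ℝ u (a - y e₁) = 0 := by rw [m4, mul_zero, add_zero] at m1; exact m1
  apply k8
  have : y e₄ - y e₁ = (a - y e₁) + s₄ • v - t₄ • e₄ := by
    have h11 : y e₄ = a + s₄ • v - t₄ • e₄ := by rw [H4]; abel
    rw [h11]; abel
  rw [this, inner_sub_right, inner_add_right, inner_smul_right, inner_smul_right, m4, m5, u3]
  simp

/-- Every line meets at most three of the lines. -/
theorem Good.transversal (h : Good A y r) (wo : IsWellOrder (E n) r) (hn : 4 ≤ n) (a v : E n)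
    (S : Finset (E n)) (hS : ∀ e ∈ S, (line a v ∩ line (y e) e).Nonempty) : S.card ≤ 3 := by
  classical
  by_contra hcard
  push Not at hcard
  obtain ⟨e₄, he4, h4⟩ := exists_max wo S (Finset.card_pos.1 (by omega))
  obtain ⟨e₃, he3, h3⟩ := exists_max wo (S.erase e₄)
    (Finset.card_pos.1 (by rw [Finset.card_erase_of_mem he4]; omega))
  have hc : 1 < ((S.erase e₄).erase e₃).card := by
    rw [Finset.card_erase_of_mem he3, Finset.card_erase_of_mem he4]; omega
  obtain ⟨e₁, he1, e₂, he2, h12⟩ := Finset.one_lt_card.1 hc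
  simp only [Finset.mem_erase] at he1 he2 he3
  obtain ⟨z1, ⟨s₁, p1⟩, ⟨t₁, q1⟩⟩ := hS e₁ he1.2.2
  obtain ⟨z2, ⟨s₂, p2⟩, ⟨t₂, q2⟩⟩ := hS e₂ he2.2.2
  obtain ⟨z3, ⟨s₃, p3⟩, ⟨t₃, q3⟩⟩ := hS e₃ he3.2
  obtain ⟨z4, ⟨s₄, p4⟩, ⟨t₄, q4⟩⟩ := hS e₄ he4
  exact h.no_transversal_aux wo hn h12
    (h3 e₁ (Finset.mem_erase.2 ⟨he1.2.1, he1.2.2⟩) he1.1)
    (h3 e₂ (Finset.mem_erase.2 ⟨he2.2.1, he2.2.2⟩) he2.1)
    (h4 e₁ he1.2.2 he1.2.1) (h4 e₂ he2.2.2 he2.2.1) (h4 e₃ he3.2 he3.1) a v
    t₁ t₂ t₃ t₄ s₁ s₂ s₃ s₄ (p1 ▸ q1) (p2 ▸ q2) (p3 ▸ q3) (p4 ▸ q4)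

theorem finiteDimensional_restrict (n d : ℕ) :
    Module.Finite ℝ (restrictTotalDegree (Fin n) ℝ d) := by
  classical
  set s : Set (Fin n →₀ ℕ) := {m | (m.sum fun _ e => e) ≤ d} with hs
  set F : Finset (Fin n →₀ ℕ) :=
    (Finset.range (d + 1)).biUnion fun i => Finset.finsuppAntidiag Finset.univ i with hF
  have hsF : ∀ m ∈ s, m ∈ F := by
    intro m hm
    rw [hF, Finset.mem_biUnion]
    refine ⟨m.sum fun _ e => e, Finset.mem_range.2 (Nat.lt_succ_of_le hm), ?_⟩
    rw [Finset.mem_finsuppAntidiag]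
    refine ⟨?_, Finset.subset_univ _⟩
    rw [Finsupp.sum_fintype _ _ (by simp)]
  have hfin : s.Finite := F.finite_toSet.subset hsF
  have : Finite s := hfin
  exact Module.Finite.of_basis (basisRestrictSupport ℝ s)

open Classical in
theorem Good.rank (h : Good A y r) (wo : IsWellOrder (E n) r) (d : ℕ) :
    ∀ (k : ℕ) (S : Finset (E n)), S.card = k → ∀ f : MvPolynomial (Fin n) ℝ,
      f ∈ vanish d ((S.image fun e => (e, y e) : Finset (E n × E n)) : Set (E n × E n)) → f ≠ 0 →
      k + Module.finrank ℝ (vanish d ((S.image fun e => (e, y e) : Finset (E n × E n)) :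
        Set (E n × E n))) ≤ Module.finrank ℝ (restrictTotalDegree (Fin n) ℝ d) := by
  have hfd := finiteDimensional_restrict n d
  intro k
  induction k with
  | zero =>
    intro S hS f _ _
    rw [zero_add]
    exact Submodule.finrank_mono (vanish_le d _)
  | succ k ih =>
    intro S hS f hf h0
    obtain ⟨m, hm, hmax⟩ := exists_max wo S (Finset.card_pos.1 (by omega))
    have hcard : (S.erase m).card = k := by rw [Finset.card_erase_of_mem hm]; omega
    set L := ((S.image fun e => (e, y e) : Finset (E n × E n)) : Set (E n × E n)) with hL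
    set F := ((S.erase m).image fun e => (e, y e) : Finset (E n × E n)) with hF
    set L' := (F : Set (E n × E n)) with hL'
    have hsub : L' ⊆ L := by
      rw [hL', hL, Finset.coe_subset, hF]
      exact Finset.image_subset_image (Finset.erase_subset _ _)
    have hle : vanish d L ≤ vanish d L' := fun g hg => ⟨hg.1, fun p hp => hg.2 p (hsub hp)⟩
    have hne := chosen_ne_zero (hle hf) h0
    have hev := h m (S.erase m) (fun e' he' => hmax e' (Finset.mem_of_mem_erase he')
      (Finset.ne_of_mem_erase he')) (chosen d L') ⟨by left; right; exact ⟨d, rfl⟩, hne⟩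
    have hlt : vanish d L < vanish d L' := by
      refine lt_of_le_of_ne hle fun heq => ?_
      have h1 : chosen d L' ∈ vanish d L := heq ▸ chosen_mem d L'
      have h2 := h1.2 (m, y m) (by
        rw [hL]; exact_mod_cast Finset.mem_image.2 ⟨m, hm, rfl⟩) 0
      simp only [zero_smul, add_zero] at h2
      exact hev h2
    have hfd' : Module.Finite ℝ (vanish d L') :=
      Submodule.finiteDimensional_of_le (vanish_le d L')
    have h3 := Submodule.finrank_lt_finrank_of_lt hlt
    have h4 := ih (S.erase m) hcard f (hle hf) h0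
    rw [← hF, ← hL'] at h4
    omega

/-- A hypersurface of degree `d` contains fewer than `C(n + d, n)` of the lines. -/
theorem Good.hypersurface (h : Good A y r) (wo : IsWellOrder (E n) r) (hn : 1 ≤ n)
    (f : MvPolynomial (Fin n) ℝ) (hf : f ≠ 0) (S : Finset (E n))
    (hS : ∀ e ∈ S, Vanishes f (y e) e) : S.card < (n + f.totalDegree).choose n := by
  classical
  have hmem : f ∈ vanish f.totalDegree
      ((S.image fun e => (e, y e) : Finset (E n × E n)) : Set (E n × E n)) := by
    refine ⟨le_rfl, fun p hp => ?_⟩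
    obtain ⟨e, he, rfl⟩ := Finset.mem_image.1 (Finset.mem_coe.1 hp)
    exact hS e he
  have h1 := h.rank wo f.totalDegree S.card S rfl f hmem hf
  have hfd := finiteDimensional_restrict n f.totalDegree
  have hfd' : Module.Finite ℝ (vanish f.totalDegree
      ((S.image fun e => (e, y e) : Finset (E n × E n)) : Set (E n × E n))) :=
    Submodule.finiteDimensional_of_le (vanish_le _ _)
  have h2 : 1 ≤ Module.finrank ℝ (vanish f.totalDegree
      ((S.image fun e => (e, y e) : Finset (E n × E n)) : Set (E n × E n))) := by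
    rw [Nat.one_le_iff_ne_zero]
    intro h0
    have h3 := (Submodule.finrank_eq_zero (S := vanish f.totalDegree
      ((S.image fun e => (e, y e) : Finset (E n × E n)) : Set (E n × E n)))).1 h0
    rw [h3] at hmem
    exact hf ((Submodule.mem_bot ℝ).1 hmem)
  have h3 := finrank_le n f.totalDegree hn
  omega

open Classical in
theorem Good.independent (h : Good A y r) (e : E n) (F : Finset (E n)) (hF : ∀ e' ∈ F, r e' e) :
    AlgebraicIndependent (fieldOf A e (F.image fun e' => (e', y e'))) fun i => y e i := by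
  set K := fieldOf A e (F.image fun e' => (e', y e')) with hK
  rw [algebraicIndependent_iff]
  intro p hp
  by_contra hp0
  have hinj : Function.Injective (algebraMap K ℝ) := (algebraMap K ℝ).injective
  have h1 : map (algebraMap K ℝ) p ≠ 0 := fun h0 =>
    hp0 (map_injective _ hinj (h0.trans (map_zero _).symm))
  have h2 := h e F hF (map (algebraMap K ℝ) p) ⟨by right; exact ⟨p, rfl⟩, h1⟩
  apply h2
  rw [eval_map, ← aeval_def]
  exact hp

end Pool.Agent.H224.GF
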