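import Mathlib

/-!
# A compact set of reals of cardinality continuum and of box dimension zero
-/

open Cardinal Set

namespace Pool.Agent.H224.GF

/-- the summands -/
noncomputable def aux (ω : ℕ → Bool) (j : ℕ) : ℝ := if ω j then (1 / 3 : ℝ) ^ (2 ^ j) else 0

/-- the parametrisation of the thin Cantor set -/
noncomputable def phi (ω : ℕ → Bool) : ℝ := ∑' j, aux ω j

/-- the thin Cantor set -/
noncomputable def thin : Set ℝ := Set.range phi

theorem pow_le (j : ℕ) : (1 / 3 : ℝ) ^ (2 ^ j) ≤ (1 / 3 : ℝ) ^ j :=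
  pow_le_pow_of_le_one (by norm_num) (by norm_num) (Nat.lt_two_pow_self).le

theorem aux_nonneg (ω : ℕ → Bool) (j : ℕ) : 0 ≤ aux ω j := by
  unfold aux; split_ifs <;> positivity

theorem aux_le (ω : ℕ → Bool) (j : ℕ) : aux ω j ≤ (1 / 3 : ℝ) ^ (2 ^ j) := by
  unfold aux; split_ifs
  · exact le_rfl
  · positivity

theorem summable_aux (ω : ℕ → Bool) : Summable (aux ω) :=
  Summable.of_nonneg_of_le (aux_nonneg ω) (fun j => (aux_le ω j).trans (pow_le j))
    (summable_geometric_of_lt_one (by norm_num) (by norm_num))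

theorem continuous_phi : Continuous phi := by
  refine continuous_tsum (u := fun j : ℕ => (1 / 3 : ℝ) ^ j) (fun j => ?_)
    (summable_geometric_of_lt_one (by norm_num) (by norm_num)) (fun j ω => ?_)
  · have h : Continuous fun b : Bool => if b then (1 / 3 : ℝ) ^ (2 ^ j) else 0 :=
      continuous_of_discreteTopology
    exact h.comp (continuous_apply (A := fun _ : ℕ => Bool) j)
  · rw [Real.norm_of_nonneg (aux_nonneg ω j)]
    exact (aux_le ω j).trans (pow_le j)

theorem isCompact_thin : IsCompact thin := isCompact_range continuous_phi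

/-- spread out a sequence along the powers of two -/
def spread (ω : ℕ → Bool) (k : ℕ) : Bool := decide (k = 2 ^ Nat.log 2 k) && ω (Nat.log 2 k)

theorem spread_pow (ω : ℕ → Bool) (j : ℕ) : spread ω (2 ^ j) = ω j := by
  simp [spread, Nat.log_pow]

theorem phi_eq (ω : ℕ → Bool) : phi ω = cantorFunction (1 / 3) (spread ω) := by
  have hinj : Function.Injective fun j : ℕ => 2 ^ j := Nat.pow_right_injective le_rfl
  have h : (∑' k, cantorFunctionAux (1 / 3 : ℝ) (spread ω) (2 ^ k)) =
      ∑' k, cantorFunctionAux (1 / 3 : ℝ) (spread ω) k := by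
    refine hinj.tsum_eq ?_
    intro k hk
    by_contra hkn
    apply hk
    have hkn' : ¬ ∃ j, k = 2 ^ j := fun ⟨j, hj⟩ => hkn ⟨j, hj.symm⟩
    have : spread ω k = false := by
      have h1 : ¬ (k = 2 ^ Nat.log 2 k) := fun h => hkn' ⟨_, h⟩
      simp [spread, h1]
    exact cantorFunctionAux_false this
  unfold cantorFunction
  rw [← h]
  unfold phi
  congr 1
  ext j
  unfold aux
  split_ifs with hj
  · rw [cantorFunctionAux_true]
    rw [spread_pow]; exact hj
  · rw [cantorFunctionAux_false]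
    rw [spread_pow]; simpa using hj

theorem phi_injective : Function.Injective phi := by
  intro ω ω' h
  rw [phi_eq, phi_eq] at h
  have h2 := cantorFunction_injective (c := 1 / 3) (by norm_num) (by norm_num) h
  ext j
  rw [← spread_pow ω j, ← spread_pow ω' j, h2]

theorem mk_thin : (Cardinal.mk thin) = 𝔠 := by
  have h : (Cardinal.mk thin) = (Cardinal.mk (ℕ → Bool)) := mk_range_eq _ phi_injective
  rw [h]; simp

/-- truncation -/
def trunc (m : ℕ) (ω : ℕ → Bool) (j : ℕ) : Bool := if j < m then ω j else false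

theorem phi_trunc (m : ℕ) (ω : ℕ → Bool) : |phi ω - phi (trunc m ω)| ≤ 2 * (1 / 3 : ℝ) ^ (2 ^ m) := by
  have h1 := (summable_aux ω).sum_add_tsum_nat_add m
  have h2 := (summable_aux (trunc m ω)).sum_add_tsum_nat_add m
  have h3 : ∑ i ∈ Finset.range m, aux ω i = ∑ i ∈ Finset.range m, aux (trunc m ω) i := by
    refine Finset.sum_congr rfl fun i hi => ?_
    simp [aux, trunc, Finset.mem_range.1 hi]
  have h4 : ∑' i, aux (trunc m ω) (i + m) = 0 := by
    have : (fun i => aux (trunc m ω) (i + m)) = fun _ => 0 := by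
      ext i; simp [aux, trunc]
    rw [this, tsum_zero]
  have h5 : phi ω - phi (trunc m ω) = ∑' i, aux ω (i + m) := by
    unfold phi
    rw [← h1, ← h2, h3, h4]; ring
  rw [h5]
  have hs : Summable fun i => aux ω (i + m) := (summable_nat_add_iff m).2 (summable_aux ω)
  have h6 : ∑' i, aux ω (i + m) ≤ ∑' i : ℕ, (1 / 3 : ℝ) ^ (2 ^ m) * (1 / 3 : ℝ) ^ i := by
    refine hs.tsum_le_tsum (fun i => ?_) ((summable_geometric_of_lt_one (by norm_num)
      (by norm_num)).mul_left _)
    refine (aux_le ω (i + m)).trans ?_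
    rw [← pow_add]
    refine pow_le_pow_of_le_one (by norm_num) (by norm_num) ?_
    have : i + 1 ≤ 2 ^ i := Nat.lt_two_pow_self
    calc 2 ^ m + i ≤ 2 ^ m + i * 2 ^ m := by
          have : 1 ≤ 2 ^ m := Nat.one_le_two_pow
          nlinarith
      _ = (i + 1) * 2 ^ m := by ring
      _ ≤ 2 ^ i * 2 ^ m := Nat.mul_le_mul_right _ this
      _ = 2 ^ (i + m) := by rw [pow_add]
  have h7 : 0 ≤ ∑' i, aux ω (i + m) := tsum_nonneg fun i => aux_nonneg _ _
  rw [abs_of_nonneg h7]
  refine h6.trans ?_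
  rw [tsum_mul_left, tsum_geometric_of_lt_one (by norm_num) (by norm_num)]
  have : (0 : ℝ) < (1 / 3 : ℝ) ^ (2 ^ m) := by positivity
  norm_num
  linarith

/-- at most `2 ^ m` balls of radius `2 * 3 ^ (-2 ^ m)` with centres in the set cover it -/
theorem cover_thin (m : ℕ) : ∃ F : Finset ℝ, F.card ≤ 2 ^ m ∧ (∀ f ∈ F, f ∈ thin) ∧
    ∀ c ∈ thin, ∃ f ∈ F, |c - f| ≤ 2 * (1 / 3 : ℝ) ^ (2 ^ m) := by
  classical
  let g : (Fin m → Bool) → ℝ := fun b => phi fun j => if h : j < m then b ⟨j, h⟩ else false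
  refine ⟨Finset.univ.image g, ?_, ?_, ?_⟩
  · refine Finset.card_image_le.trans ?_
    simp
  · intro f hf
    obtain ⟨b, _, rfl⟩ := Finset.mem_image.1 hf
    exact ⟨_, rfl⟩
  · rintro _ ⟨ω, rfl⟩
    refine ⟨phi (trunc m ω), Finset.mem_image.2 ⟨fun i => ω i, Finset.mem_univ _, ?_⟩,
      phi_trunc m ω⟩
    simp only [g]
    congr 1

end Pool.Agent.H224.GF
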