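import Mathlib
import Pool.Agent.H224.GF.Thin
import Pool.Graph.R_pool_sql_team_39128cda.H.MP_05d054_an.A

/-!
# The compact set of box dimension zero in `ℝⁿ`, and sums with it
-/

open Cardinal Set Metric MeasureTheory Filter Topology
open scoped ENNReal NNReal Pointwise

namespace Pool.Agent.H224.GF

/-- Euclidean space -/
abbrev E (n : ℕ) := EuclideanSpace ℝ (Fin n)

/-- the small set -/
def small (n : ℕ) : Set (E n) := {p | ∀ i, p i ∈ thin}

theorem isCompact_small (n : ℕ) : IsCompact (small n) := by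
  have h := (isCompact_univ_pi (s := fun _ : Fin n => thin) fun _ => isCompact_thin).image
    (EuclideanSpace.equiv (Fin n) ℝ).symm.continuous
  refine h.of_isClosed_subset ?_ ?_
  · have : small n = ⋂ i, {p : E n | p i ∈ thin} := by ext; simp [small]
    rw [this]
    refine isClosed_iInter fun i => ?_
    exact isCompact_thin.isClosed.preimage (by fun_prop)
  · intro p hp
    refine ⟨(EuclideanSpace.equiv (Fin n) ℝ) p, ?_, by simp⟩
    intro i _
    exact hp i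

theorem nonempty_small (n : ℕ) : (small n).Nonempty := by
  refine ⟨WithLp.toLp 2 fun _ => phi fun _ => false, fun i => ?_⟩
  exact ⟨_, rfl⟩

theorem norm_le_of_coord {n : ℕ} (x : E n) {M : ℝ} (hM : 0 ≤ M) (h : ∀ i, |x i| ≤ M) :
    ‖x‖ ≤ (n + 1) * M := by
  have h1 : ‖x‖ ^ 2 ≤ ((n + 1) * M) ^ 2 := by
    rw [EuclideanSpace.norm_sq_eq]
    calc ∑ i, ‖x i‖ ^ 2 ≤ ∑ _i : Fin n, M ^ 2 := by
          refine Finset.sum_le_sum fun i _ => ?_
          rw [Real.norm_eq_abs]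
          exact pow_le_pow_left₀ (abs_nonneg _) (h i) 2
      _ = n * M ^ 2 := by simp
      _ ≤ ((n + 1) * M) ^ 2 := by
          have : (n : ℝ) ≤ (n + 1) ^ 2 := by nlinarith [(Nat.cast_nonneg n : (0 : ℝ) ≤ n)]
          rw [mul_pow]
          exact mul_le_mul_of_nonneg_right this (by positivity)
  exact abs_le_of_sq_le_sq' h1 (by positivity) |>.2

theorem cover_small (n m : ℕ) : ∃ F : Finset (E n), F.card ≤ (2 ^ m) ^ n ∧ (∀ f ∈ F, f ∈ small n) ∧
    ∀ p ∈ small n, ∃ f ∈ F, dist p f ≤ (n + 1) * (2 * (1 / 3 : ℝ) ^ (2 ^ m)) := by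
  classical
  obtain ⟨F, h1, h2, h3⟩ := cover_thin m
  refine ⟨(Fintype.piFinset fun _ : Fin n => F).image (WithLp.toLp 2), ?_, ?_, ?_⟩
  · refine Finset.card_image_le.trans ?_
    rw [Fintype.card_piFinset]
    simp only [Finset.prod_const, Finset.card_univ, Fintype.card_fin]
    exact Nat.pow_le_pow_left h1 n
  · intro f hf i
    obtain ⟨b, hb, rfl⟩ := Finset.mem_image.1 hf
    exact h2 _ (Fintype.mem_piFinset.1 hb i)
  · intro p hp
    choose g hg1 hg2 using fun i => h3 (p i) (hp i)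
    refine ⟨WithLp.toLp 2 g, Finset.mem_image.2 ⟨g, Fintype.mem_piFinset.2 hg1, rfl⟩, ?_⟩
    rw [dist_eq_norm]
    refine norm_le_of_coord _ (by positivity) fun i => ?_
    simpa using hg2 i

/-- The covering numbers of the small set grow more slowly than every power. -/
theorem cover_small_rpow (n : ℕ) {ε : ℝ} (hε : 0 < ε) : ∃ A : ℝ, 0 < A ∧ ∀ δ : ℝ, 0 < δ → δ < 1 →
    ∃ F : Finset (E n), (F.card : ℝ) ≤ A * δ ^ (-ε) ∧ (∀ f ∈ F, f ∈ small n) ∧
      ∀ p ∈ small n, ∃ f ∈ F, dist p f ≤ δ := by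
  set η : ℝ := ε / (n + 1) with hη
  have hn1 : (0 : ℝ) < n + 1 := by positivity
  have hη0 : 0 < η := by positivity
  have hl3 : 0 < Real.log 3 := Real.log_pos (by norm_num)
  set B : ℝ := 1 + 2 * (2 * (n + 1)) ^ η / (η * Real.log 3) with hB
  have hB1 : 1 ≤ B := by
    have : 0 ≤ 2 * (2 * ((n : ℝ) + 1)) ^ η / (η * Real.log 3) := by positivity
    linarith
  refine ⟨B ^ n, by positivity, fun δ h0 h1 => ?_⟩
  have hex : ∃ m : ℕ, (n + 1) * (2 * (1 / 3 : ℝ) ^ (2 ^ m)) ≤ δ := by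
    have h2 : Tendsto (fun k : ℕ => ((n : ℝ) + 1) * (2 * (1 / 3 : ℝ) ^ k)) atTop (𝓝 ((n + 1) * (2 * 0))) :=
      ((tendsto_pow_atTop_nhds_zero_of_lt_one (by norm_num) (by norm_num)).const_mul _).const_mul _
    rw [mul_zero, mul_zero] at h2
    obtain ⟨k, hk⟩ := (h2.eventually (gt_mem_nhds h0)).exists
    refine ⟨k, le_trans ?_ hk.le⟩
    have := pow_le k
    gcongr
  classical
  set m := Nat.find hex with hm
  have hm1 : (n + 1) * (2 * (1 / 3 : ℝ) ^ (2 ^ m)) ≤ δ := Nat.find_spec hex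
  obtain ⟨F, hF1, hF2, hF3⟩ := cover_small n m
  refine ⟨F, ?_, hF2, fun p hp => ?_⟩
  · have hδη : 1 ≤ δ ^ (-η) := Real.one_le_rpow_of_pos_of_le_one_of_nonpos h0 h1.le (by linarith)
    have hkey : (2 : ℝ) ^ m ≤ B * δ ^ (-η) := by
      rcases Nat.eq_zero_or_pos m with h | h
      · rw [h, pow_zero]; nlinarith
      · obtain ⟨k, hk⟩ := Nat.exists_eq_succ_of_ne_zero h.ne'
        have h3 : ¬ ((n + 1) * (2 * (1 / 3 : ℝ) ^ (2 ^ k)) ≤ δ) := Nat.find_min hex (by omega)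
        push Not at h3
        -- `3 ^ (2 ^ k) < 2 (n + 1) / δ`
        have h4 : (3 : ℝ) ^ (2 ^ k) ≤ 2 * (n + 1) / δ := by
          rw [le_div_iff₀ h0]
          have h5 : (1 / 3 : ℝ) ^ (2 ^ k) * 3 ^ (2 ^ k) = 1 := by rw [← mul_pow]; norm_num
          have h6 : (0 : ℝ) < 3 ^ (2 ^ k) := by positivity
          nlinarith
        have h5 : (2 : ℝ) ^ k * (η * Real.log 3) ≤ (2 * (n + 1) / δ) ^ η := by
          calc (2 : ℝ) ^ k * (η * Real.log 3) ≤ Real.exp ((2 : ℝ) ^ k * (η * Real.log 3)) := by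
                have := Real.add_one_le_exp ((2 : ℝ) ^ k * (η * Real.log 3))
                linarith
            _ = ((3 : ℝ) ^ (2 ^ k)) ^ η := by
                have e1 : ((3 : ℝ) ^ (2 ^ k : ℕ)) = (3 : ℝ) ^ ((2 ^ k : ℕ) : ℝ) :=
                  (Real.rpow_natCast _ _).symm
                rw [e1, ← Real.rpow_mul (by norm_num), Real.rpow_def_of_pos (by norm_num)]
                push_cast
                ring_nf
            _ ≤ (2 * (n + 1) / δ) ^ η := Real.rpow_le_rpow (by positivity) h4 hη0.le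
        have h6 : (2 * ((n : ℝ) + 1) / δ) ^ η = (2 * (n + 1)) ^ η * δ ^ (-η) := by
          rw [Real.div_rpow (by positivity) h0.le, Real.rpow_neg h0.le]; rfl
        rw [h6] at h5
        have h7 : (2 : ℝ) ^ k ≤ (2 * (n + 1)) ^ η / (η * Real.log 3) * δ ^ (-η) := by
          rw [div_mul_eq_mul_div, le_div_iff₀ (by positivity)]
          exact h5
        rw [hk, pow_succ, hB]
        have h8 : (0 : ℝ) < δ ^ (-η) := by positivity
        calc (2 : ℝ) ^ k * 2 ≤ ((2 * (n + 1)) ^ η / (η * Real.log 3) * δ ^ (-η)) * 2 := by linarith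
          _ ≤ (1 + 2 * (2 * (n + 1)) ^ η / (η * Real.log 3)) * δ ^ (-η) := by
              have : (1 + 2 * (2 * ((n : ℝ) + 1)) ^ η / (η * Real.log 3)) * δ ^ (-η) =
                δ ^ (-η) + ((2 * (n + 1)) ^ η / (η * Real.log 3) * δ ^ (-η)) * 2 := by ring
              rw [this]; linarith
    calc (F.card : ℝ) ≤ (((2 ^ m) ^ n : ℕ) : ℝ) := by exact_mod_cast hF1
      _ = ((2 : ℝ) ^ m) ^ n := by push_cast; ring
      _ ≤ (B * δ ^ (-η)) ^ n := pow_le_pow_left₀ (by positivity) hkey n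
      _ = B ^ n * (δ ^ (-η)) ^ n := mul_pow _ _ _
      _ ≤ B ^ n * δ ^ (-ε) := by
          refine mul_le_mul_of_nonneg_left ?_ (by positivity)
          rw [← Real.rpow_natCast, ← Real.rpow_mul h0.le]
          refine Real.rpow_le_rpow_of_exponent_ge h0 h1.le ?_
          rw [hη]
          rw [neg_mul, neg_le_neg_iff, div_mul_eq_mul_div, div_le_iff₀ hn1]
          nlinarith
  · obtain ⟨f, hf, hpf⟩ := hF3 p hp
    exact ⟨f, hf, hpf.trans hm1⟩

/-- Box dimension zero: for every `ε > 0` the set is covered by `A δ ^ (-ε)` balls of radius `δ`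
with centres in the set, for all `δ < 1`. -/
def BoxZero {n : ℕ} (P : Set (E n)) : Prop :=
  ∀ ε : ℝ, 0 < ε → ∃ A : ℝ, 0 < A ∧ ∀ δ : ℝ, 0 < δ → δ < 1 →
    ∃ F : Finset (E n), (F.card : ℝ) ≤ A * δ ^ (-ε) ∧ (∀ f ∈ F, f ∈ P) ∧
      ∀ p ∈ P, ∃ f ∈ F, dist p f ≤ δ

/-- scaled copies of the small set -/
def scaled (n : ℕ) (l : ℝ) : Set (E n) := (fun p : E n => l • p) '' small n

theorem isCompact_scaled (n : ℕ) (l : ℝ) : IsCompact (scaled n l) :=
  (isCompact_small n).image (by fun_prop)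

theorem nonempty_scaled (n : ℕ) (l : ℝ) : (scaled n l).Nonempty := (nonempty_small n).image _

theorem boxZero_scaled (n : ℕ) {l : ℝ} (h0 : 0 < l) (h1 : l ≤ 1) : BoxZero (scaled n l) := by
  classical
  intro ε hε
  obtain ⟨A, hA, hcov⟩ := cover_small_rpow n hε
  refine ⟨A, hA, fun δ hδ0 hδ1 => ?_⟩
  obtain ⟨F, hF1, hF2, hF3⟩ := hcov δ hδ0 hδ1
  refine ⟨F.image fun p => l • p, ?_, ?_, ?_⟩
  · refine le_trans ?_ hF1
    exact_mod_cast Finset.card_image_le
  · intro f hf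
    obtain ⟨g, hg, rfl⟩ := Finset.mem_image.1 hf
    exact ⟨g, hF2 g hg, rfl⟩
  · rintro _ ⟨p, hp, rfl⟩
    obtain ⟨f, hf, hpf⟩ := hF3 p hp
    refine ⟨l • f, Finset.mem_image_of_mem _ hf, ?_⟩
    show dist (l • p) (l • f) ≤ δ
    rw [dist_smul₀, Real.norm_of_nonneg h0.le]
    calc l * dist p f ≤ 1 * dist p f := mul_le_mul_of_nonneg_right h1 dist_nonneg
      _ ≤ δ := by rw [one_mul]; exact hpf

theorem abs_le_of_mem_thin {t : ℝ} (ht : t ∈ thin) : |t| ≤ 2 := by
  obtain ⟨ω, rfl⟩ := ht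
  unfold phi
  rw [abs_of_nonneg (tsum_nonneg fun j => aux_nonneg ω j)]
  have h := (summable_aux ω).tsum_le_tsum (fun j => (aux_le ω j).trans (pow_le j))
    (summable_geometric_of_lt_one (by norm_num) (by norm_num))
  refine h.trans ?_
  rw [tsum_geometric_of_lt_one (by norm_num) (by norm_num)]
  norm_num

theorem scaled_subset (n : ℕ) {l : ℝ} (h0 : 0 < l) :
    scaled n l ⊆ closedBall 0 (l * ((n + 1) * 2)) := by
  rintro _ ⟨p, hp, rfl⟩
  rw [mem_closedBall_zero_iff]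
  show ‖l • p‖ ≤ _
  rw [norm_smul, Real.norm_of_nonneg h0.le]
  exact mul_le_mul_of_nonneg_left
    (norm_le_of_coord p (by norm_num) fun i => abs_le_of_mem_thin (hp i)) h0.le

end Pool.Agent.H224.GF
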