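import Pool.Agent.H224.GF.Avoid
import Pool.Agent.H224.GF.Small

/-!
# The transfinite choice of generic positions
-/

open Cardinal Set MvPolynomial

namespace Pool.Agent.H224.GF

theorem mk_E_le (n : ℕ) : (Cardinal.mk (E n)) ≤ 𝔠 := by
  have h1 : (Cardinal.mk (E n)) = (Cardinal.mk (Fin n → ℝ)) := mk_congr (WithLp.equiv 2 (Fin n → ℝ))
  rw [h1]
  have h2 : (Cardinal.mk (Fin n → ℝ)) = 𝔠 ^ (n : Cardinal) := by simp [mk_real]
  rw [h2]
  calc 𝔠 ^ (n : Cardinal) ≤ 𝔠 ^ ℵ₀ := power_le_power_left (by exact continuum_ne_zero) (natCast_lt_aleph0.le)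
    _ = 𝔠 := continuum_power_aleph0

theorem mk_finset_lt {T : Type} (hT : (Cardinal.mk T) < 𝔠) : (Cardinal.mk (Finset T)) < 𝔠 := by
  rcases finite_or_infinite T with h | h
  · exact (lt_aleph0_of_finite _).trans aleph0_lt_continuum
  · rwa [mk_finset_of_infinite]

open Classical in
theorem exists_good (n : ℕ) {l : ℝ} (hl : 0 < l) (x : E n → E n)
    (G : E n → Finset (E n × E n) → Set (MvPolynomial (Fin n) ℝ))
    (hc : ∀ e F, (G e F).Countable) (h0 : ∀ e F, (0 : MvPolynomial (Fin n) ℝ) ∉ G e F)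
    (r : E n → E n → Prop) (e : E n) (hr : (Cardinal.mk {e' // r e' e}) < 𝔠) (q : ∀ e', r e' e → E n) :
    ∃ p : E n, p - x e ∈ scaled n l ∧ ∀ F : Finset {e' // r e' e},
      ∀ g ∈ G e (F.image fun e' : {e' // r e' e} => (e'.1, q e'.1 e'.2)), eval (fun i => p i) g ≠ 0 := by
  set 𝒢 : Set (MvPolynomial (Fin n) ℝ) :=
    ⋃ F : Finset {e' // r e' e}, G e (F.image fun e' : {e' // r e' e} => (e'.1, q e'.1 e'.2)) with h𝒢
  have h1 : (Cardinal.mk 𝒢) < 𝔠 := by
    refine (mk_iUnion_le _).trans_lt ?_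
    refine mul_lt_of_lt aleph0_le_continuum (mk_finset_lt hr) ?_
    refine lt_of_le_of_lt (ciSup_le' fun F => ?_) aleph0_lt_continuum
    exact (hc _ _).le_aleph0
  have h2 : (0 : MvPolynomial (Fin n) ℝ) ∉ 𝒢 := by
    rw [h𝒢, mem_iUnion]
    rintro ⟨F, hF⟩
    exact h0 _ _ hF
  obtain ⟨p, hp, hp2⟩ := avoid n (fun i => (fun t => x e i + l * t) '' thin) (fun i => by
    rw [mk_image_eq (fun a b hab => by
      have : l * a = l * b := add_left_cancel hab
      exact mul_left_cancel₀ hl.ne' this), mk_thin]) 𝒢 h1 h2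
  choose t ht htp using hp
  refine ⟨WithLp.toLp 2 p, ⟨WithLp.toLp 2 t, fun i => ht i, ?_⟩, fun F g hg => ?_⟩
  · ext i
    have h3 : x e i + l * t i = p i := htp i
    simp only [PiLp.sub_apply, PiLp.smul_apply, smul_eq_mul]
    rw [← h3]; ring
  · exact hp2 g (mem_iUnion.2 ⟨F, hg⟩)

open Classical in
theorem master (n : ℕ) {l : ℝ} (hl : 0 < l) (x : E n → E n)
    (G : E n → Finset (E n × E n) → Set (MvPolynomial (Fin n) ℝ))
    (hc : ∀ e F, (G e F).Countable) (h0 : ∀ e F, (0 : MvPolynomial (Fin n) ℝ) ∉ G e F) :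
    ∃ (y : E n → E n) (r : E n → E n → Prop), IsWellOrder (E n) r ∧
      (∀ e, y e - x e ∈ scaled n l) ∧
      ∀ (e : E n) (F : Finset (E n)), (∀ e' ∈ F, r e' e) →
        ∀ g ∈ G e (F.image fun e' => (e', y e')), eval (fun i => y e i) g ≠ 0 := by
  obtain ⟨r, wo, hr⟩ := exists_ord_eq (E n)
  have hcard : ∀ e, (Cardinal.mk {e' // r e' e}) < 𝔠 := by
    intro e
    have h := card_typein_lt (r := r) e hr
    rw [Ordinal.card_typein] at h
    exact h.trans_le (mk_E_le n)
  have hwf : WellFounded r := wo.wf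
  obtain ⟨step, hstep⟩ : ∃ step : (∀ e : E n, (∀ e', r e' e → E n) → E n),
      ∀ e (q : ∀ e', r e' e → E n), step e q - x e ∈ scaled n l ∧
      ∀ F : Finset {e' // r e' e},
      ∀ g ∈ G e (F.image fun e' : {e' // r e' e} => (e'.1, q e'.1 e'.2)), eval (fun i => step e q i) g ≠ 0 :=
    ⟨fun e q => Classical.choose (exists_good n hl x G hc h0 r e (hcard e) q),
      fun e q => Classical.choose_spec (exists_good n hl x G hc h0 r e (hcard e) q)⟩
  obtain ⟨y, hy⟩ : ∃ y : E n → E n, ∀ e, y e = step e fun e' _ => y e' :=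
    ⟨WellFounded.fix (C := fun _ => E n) hwf step, fun e => WellFounded.fix_eq hwf step e⟩
  refine ⟨y, r, wo, fun e => ?_, fun e F hF g hg => ?_⟩
  · rw [hy e]; exact (hstep e _).1
  · rw [hy e]
    have hFF : ((F.subtype fun e' => r e' e).image fun e' : {e' // r e' e} => (e'.1, y e'.1)) =
        F.image fun e' => (e', y e') := by
      ext ⟨a, b⟩
      simp only [Finset.mem_image, Finset.mem_subtype, Subtype.exists, Prod.mk.injEq,
        exists_and_left, exists_prop]
      constructor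
      · rintro ⟨a', h1, h2, h3, h4⟩
        exact ⟨a', h1, h2, h4⟩
      · rintro ⟨a', ha', h2, h3⟩
        exact ⟨a', ha', h2, hF a' ha', h3⟩
    refine (hstep e fun e' _ => y e').2 (F.subtype fun e' => r e' e) g ?_
    have : G e ((F.subtype fun e' => r e' e).image fun e' : {e' // r e' e} => (e'.1, y e'.1)) =
        G e (F.image fun e' => (e', y e')) := congrArg _ hFF
    rw [this]
    exact hg

end Pool.Agent.H224.GF
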